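import Pool.Agent.H26.GW.Rail

/-!
# Module NEAR
-/

set_option autoImplicit false

namespace Pool.Agent.H26.GW

open Pool.Agent.H55.GW

theorem near : T_NEAR := by
  classical
  intro φ F m N O k len r pz hφ hex hfe h hz i hi c p hp
  set Z : Finset Vx := Finset.univ.image (fun c' : Fin k => r c' (pz i c')) with hZ
  have hZs : (Z : Set Vx) = Zs r (pz i) := by
    ext x
    simp only [hZ, Finset.coe_image, Finset.coe_univ, Set.image_univ, Set.mem_range, Zs,
      Set.mem_ofPred_eq]
    constructor
    · rintro ⟨c', rfl⟩
      exact ⟨c', rfl⟩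
    · rintro ⟨c', rfl⟩
      exact ⟨c', rfl⟩
  have hZc : Z.card ≤ k := by
    have := Finset.card_image_le (s := (Finset.univ : Finset (Fin k)))
      (f := fun c' : Fin k => r c' (pz i c'))
    simpa using this
  have hle : ∀ c, pz i c ≤ len c := fun c => (hz.rng i hi c).2.le
  have hinjr : ∀ a b : ℕ, a ≤ len c → b ≤ len c → r c a = r c b → a = b := fun a b ha hb hab =>
    (h.rails.inj c a c b ha hb hab).2
  constructor
  · intro hpO
    by_contra hcon
    push Not at hcon
    have hplt : p < len c := by
      rcases Nat.lt_or_ge p (len c) with h1 | h1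
      · exact h1
      · exfalso
        have h2 : p = len c := le_antisymm hp h1
        rw [h2] at hpO
        exact (chn_fin h hi c).2 hpO
    set X : Finset Vx := (Finset.Ioc (pz i c) p).image (r c) with hX
    have hXc : X.card = p - pz i c := by
      rw [hX, Finset.card_image_of_injOn, Nat.card_Ioc]
      intro a ha b hb hab
      simp only [Finset.coe_Ioc, Set.mem_Ioc] at ha hb
      exact hinjr a b (by omega) (by omega) hab
    have hXm : ∀ x ∈ X, x ∈ F.inn ∨ x ∈ F.src m := by
      intro x hx
      obtain ⟨t, ht, rfl⟩ := Finset.mem_image.1 hx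
      rw [Finset.mem_Ioc] at ht
      exact Or.inl (chn_inn h c t (by omega) (by omega))
    have hsep : Sep (F.D m) (Z : Set Vx) (F.src m) (X : Set Vx) := by
      rw [hZs]
      intro x0 hx0 y hy hr
      obtain ⟨t, ht, rfl⟩ := Finset.mem_image.1 (Finset.mem_coe.1 hy)
      rw [Finset.mem_Ioc] at ht
      have h1 : r c t ∈ O i :=
        chn_back h hi (rails_rin h.rails c t p ht.2 hp) hpO
      have h2 : x0 ∈ O i := chn_back h hi hr h1
      have h3 := rail_avoid h (pz i) hle c t (len c) (by omega) (le_refl _) (Or.inl ht.1)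
      exact hz.sep i hi x0 ⟨hx0, h2⟩ _ (chn_fin h hi c) (hr.trans h3)
    have h4 := hfe X hXm Z hsep
    have h5 := hφ hZc
    omega
  · intro hpO
    by_contra hcon
    push Not at hcon
    have hp1 : 1 ≤ p := by
      rcases Nat.eq_zero_or_pos p with h1 | h1
      · exfalso
        rw [h1] at hpO
        exact hpO (chn_start h hi c).2
      · exact h1
    have hplt : pz i c < len c := (hz.rng i hi c).2
    set X : Finset Vx := (Finset.Ico p (pz i c)).image (r c) with hX
    have hXc : X.card = pz i c - p := by
      rw [hX, Finset.card_image_of_injOn, Nat.card_Ico]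
      intro a ha b hb hab
      simp only [Finset.coe_Ico, Set.mem_Ico] at ha hb
      exact hinjr a b (by omega) (by omega) hab
    have hXm : ∀ x ∈ X, x ∈ F.inn ∨ x ∈ F.snk m := by
      intro x hx
      obtain ⟨t, ht, rfl⟩ := Finset.mem_image.1 hx
      rw [Finset.mem_Ico] at ht
      exact Or.inl (chn_inn h c t (by omega) (by omega))
    have hsep : Sep (F.D m) (Z : Set Vx) (X : Set Vx) (F.snk m) := by
      rw [hZs]
      intro y hy z hz' hr
      obtain ⟨t, ht, rfl⟩ := Finset.mem_image.1 (Finset.mem_coe.1 hy)
      rw [Finset.mem_Ico] at ht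
      have h0 : z ∉ O i := by
        intro h1
        have h2 : r c t ∈ O i := chn_back h hi hr h1
        exact hpO (chn_back h hi (rails_rin h.rails c p t ht.1 (by omega)) h2)
      have h3 := rail_avoid h (pz i) hle c 0 t (by omega) (by omega) (Or.inr ht.2)
      exact hz.sep i hi _ (chn_start h hi c) z ⟨hz', h0⟩ (h3.trans hr)
    have h4 := hex X hXm Z hsep
    have h5 := hφ hZc
    omega

end Pool.Agent.H26.GW
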