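import Pool.Agent.H55.GW.Targets3

/-!
# Rails: helper lemmas for the modules ZCM, ZCE, NEAR
-/

set_option autoImplicit false

namespace Pool.Agent.H26.GW

open Pool.Agent.H55.GW

theorem rails_rin {D : Vx → Vx → Prop} {k : ℕ} {len : Fin k → ℕ} {r : Fin k → ℕ → Vx}
    {A B : Set Vx} (h : Rails D k len r A B) (c : Fin k) (p q : ℕ) (hpq : p ≤ q)
    (hq : q ≤ len c) : RIn D {x | ∃ t, p ≤ t ∧ t ≤ q ∧ x = r c t} (r c p) (r c q) := by
  induction q, hpq using Nat.le_induction with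
  | base => exact RIn.refl ⟨p, le_refl _, le_refl _, rfl⟩
  | succ n hn ih =>
    have h1 := ih (by omega)
    have h2 : RIn D {x | ∃ t, p ≤ t ∧ t ≤ n + 1 ∧ x = r c t} (r c p) (r c n) :=
      h1.mono_set (by
        rintro x ⟨t, ht1, ht2, rfl⟩
        exact ⟨t, ht1, by omega, rfl⟩)
    exact h2.tail (h.arc c n (by omega)) ⟨n + 1, by omega, le_refl _, rfl⟩

section

variable {F : Frame} {m : ℕ → Vx} {N : ℕ} {O : ℕ → Set Vx} {k : ℕ} {len : Fin k → ℕ}
  {r : Fin k → ℕ → Vx}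

theorem src_no_in {x y : Vx} (hx : x ∈ F.src m) : ¬ F.D m y x := by
  obtain ⟨e, -, he, rfl⟩ := hx
  exact Frame.no_in_src he y

theorem snk_no_out {x y : Vx} (hx : x ∈ F.snk m) : ¬ F.D m x y := by
  obtain ⟨e, he, rfl⟩ := hx
  exact Frame.no_out_snk he y

/-- a vertex with an in-arc and an out-arc is internal -/
theorem inn_of_arcs {x y z : Vx} (h1 : F.D m x y) (h2 : F.D m y z) : y ∈ F.inn := by
  rcases y with e | v
  · exfalso
    by_cases he : e ∈ F.base m
    · exact Frame.no_out_snk he z h2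
    · exact Frame.no_in_src he x h1
  · rcases (Frame.D_uni h1).2 with ⟨w, hw, h⟩ | ⟨e, he, h⟩
    · exact ⟨w, hw, h⟩
    · cases h

theorem chn_inn (h : Chn F m N O k len r) (c : Fin k) (p : ℕ) (h1 : 1 ≤ p) (h2 : p < len c) :
    r c p ∈ F.inn := by
  have ha := h.rails.arc c (p - 1) (by omega)
  rw [Nat.sub_add_cancel h1] at ha
  exact inn_of_arcs ha (h.rails.arc c p h2)

theorem chn_not_src (h : Chn F m N O k len r) (c : Fin k) (p : ℕ) (h1 : 1 ≤ p)
    (h2 : p ≤ len c) : r c p ∉ F.src m := by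
  intro hs
  have ha := h.rails.arc c (p - 1) (by omega)
  rw [Nat.sub_add_cancel h1] at ha
  exact src_no_in hs ha

theorem chn_not_snk (h : Chn F m N O k len r) (c : Fin k) (p : ℕ) (h2 : p < len c) :
    r c p ∉ F.snk m := fun hs => snk_no_out hs (h.rails.arc c p h2)

theorem chn_back (h : Chn F m N O k len r) {i : ℕ} (hi : i ≤ N) {S : Set Vx} {x y : Vx}
    (hr : RIn (F.D m) S x y) (hy : y ∈ O i) : x ∈ O i := by
  refine hr.rev.induct (p := fun z => z ∈ O i) hy ?_
  intro u v _ _ huv hu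
  exact h.inc i hi v u huv hu

theorem chn_start (h : Chn F m N O k len r) {i : ℕ} (hi : i ≤ N) (c : Fin k) :
    r c 0 ∈ F.src m ∩ O i :=
  ⟨(h.rails.start c).1, h.mono 0 i (Nat.zero_le _) hi (h.rails.start c).2⟩

theorem chn_fin (h : Chn F m N O k len r) {i : ℕ} (hi : i ≤ N) (c : Fin k) :
    r c (len c) ∈ F.snk m \ O i :=
  ⟨(h.rails.fin c).1, fun h' => (h.rails.fin c).2 (h.mono i N hi (le_refl _) h')⟩

theorem chn_len (h : Chn F m N O k len r) (c : Fin k) : 2 ≤ len c := by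
  by_contra hcon
  have h0 := (h.rails.start c).1
  have h1 := (h.rails.fin c).1
  rcases Nat.lt_or_ge (len c) 1 with h2 | h2
  · have h3 : len c = 0 := by omega
    rw [h3] at h1
    obtain ⟨e, -, he, h4⟩ := h0
    obtain ⟨e', he', h5⟩ := h1
    rw [h4] at h5
    cases h5
    exact he he'
  · have h3 : len c = 1 := by omega
    have ha := h.rails.arc c 0 (by omega)
    rw [h3] at h1
    obtain ⟨e, -, he, h4⟩ := h0
    obtain ⟨e', he', h5⟩ := h1
    rw [h4] at ha
    rw [zero_add, h5] at ha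
    exact ha

/-- part of a rail avoiding a set of positions -/
theorem rail_avoid (h : Chn F m N O k len r) (P : Fin k → ℕ) (hP : ∀ c, P c ≤ len c)
    (c : Fin k) (p q : ℕ) (hpq : p ≤ q) (hq : q ≤ len c) (hav : P c < p ∨ q < P c) :
    RIn (F.D m) (Zs r P)ᶜ (r c p) (r c q) := by
  refine (rails_rin h.rails c p q hpq hq).mono_set ?_
  rintro x ⟨t, h1, h2, rfl⟩ ⟨c', h3⟩
  obtain ⟨h4, h5⟩ := h.rails.inj c t c' (P c') (by omega) (hP c') h3
  subst h4
  omega

end

end Pool.Agent.H26.GW
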