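import Pool.Agent.H26.GW.Rail

/-!
# Module ZCE
-/

set_option autoImplicit false

namespace Pool.Agent.H26.GW

open Pool.Agent.H55.GW

/-- the neighbours of a real element are its unique internal vertex -/
theorem arc_from_inl {F : Frame} {m : ℕ → Vx} {e : ℕ} {x y : Vx} (h1 : F.D m (Sum.inl e) x)
    (h2 : F.D m (Sum.inl e) y) : x = y := by
  rcases x with a | v
  · exact absurd h1 (by simp [Frame.D])
  · rcases y with a | w
    · exact absurd h2 (by simp [Frame.D])
    · rw [F.att_uniq e v w h1.1 h2.1]

theorem arc_to_inl {F : Frame} {m : ℕ → Vx} {e : ℕ} {x y : Vx} (h1 : F.D m x (Sum.inl e))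
    (h2 : F.D m y (Sum.inl e)) : x = y := by
  rcases x with a | v
  · exact absurd h1 (by simp [Frame.D])
  · rcases y with a | w
    · exact absurd h2 (by simp [Frame.D])
    · rw [F.att_uniq e v w h1.1 h2.1]

theorem zce (hmen : T_MEN) : T_ZCE := by
  classical
  intro F m N O k len r h i hi
  -- a separator of size at most k
  have h1 : ∃ S : Finset Vx, Sep (F.D m) (S : Set Vx) (F.src m ∩ O i) (F.snk m \ O i) ∧
      S.card ≤ k := by
    by_contra hcon
    push Not at hcon
    refine h.flow i hi (hmen Vx (F.D m) F.uni F.uni_finite (fun u v huv => Frame.D_uni huv) _ _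
      ?_ ?_ (k + 1) fun S hS => hcon S hS)
    · rintro x ⟨⟨e, he, -, rfl⟩, -⟩
      exact Or.inr ⟨e, he, rfl⟩
    · rintro x ⟨⟨e, he, rfl⟩, -⟩
      exact Or.inr ⟨e, Finset.mem_coe.1 (Frame.base_subset he), rfl⟩
  obtain ⟨S, hS, hSk⟩ := h1
  -- every rail meets S
  have h2 : ∀ c, ∃ q, q ≤ len c ∧ r c q ∈ S := by
    intro c
    have hw := rails_rin h.rails c 0 (len c) (Nat.zero_le _) (le_refl _)
    obtain ⟨z, hz, t, -, ht, rfl⟩ := hS.exists_mem (chn_start h hi c) (chn_fin h hi c) hw
    exact ⟨t, ht, by simpa using hz⟩
  choose q hq hqS using h2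
  have hinj : Function.Injective (fun c => r c (q c)) := by
    intro c c' hcc
    exact (h.rails.inj c (q c) c' (q c') (hq c) (hq c') hcc).1
  have hSeq : (Finset.univ.image fun c => r c (q c)) = S := by
    refine Finset.eq_of_subset_of_card_le ?_ ?_
    · intro x hx
      obtain ⟨c, -, rfl⟩ := Finset.mem_image.1 hx
      exact hqS c
    · rw [Finset.card_image_of_injective _ hinj, Finset.card_univ, Fintype.card_fin]
      exact hSk
  have hS' : ∀ x, x ∈ S → ∃ c, x = r c (q c) := by
    intro x hx
    rw [← hSeq] at hx
    obtain ⟨c, -, rfl⟩ := Finset.mem_image.1 hx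
    exact ⟨c, rfl⟩
  refine ⟨fun c => if q c = 0 then 1 else if q c = len c then len c - 1 else q c, ?_, ?_⟩
  · intro c
    have h3 := chn_len h c
    have h4 := hq c
    show 1 ≤ (if q c = 0 then 1 else if q c = len c then len c - 1 else q c) ∧
      (if q c = 0 then 1 else if q c = len c then len c - 1 else q c) < len c
    split_ifs <;> omega
  · intro a ha b hb hr
    rcases hr.avoid_or (S : Set Vx) with h3 | ⟨z, hzS, h3, h4⟩
    · exact hS a ha b hb (h3.mono_set fun v hv => hv.2)
    · obtain ⟨c, rfl⟩ := hS' z (by simpa using hzS)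
      have hlen := chn_len h c
      have hzc := h4.left_mem
      have h5 : RIn (F.D m) (Zs r fun c => if q c = 0 then 1 else
          if q c = len c then len c - 1 else q c)ᶜ a (r c (q c)) := h3.mono_set (by
        rintro v (hv | hv)
        · exact hv.1
        · rw [Set.mem_singleton_iff.1 hv]
          exact hzc)
      by_cases c1 : q c = 0
      · rcases h4.cases_head with h6 | ⟨w, h6, h7, -⟩
        · rw [c1] at h6
          obtain ⟨e, -, he, h8⟩ := (h.rails.start c).1
          obtain ⟨e', he', h9⟩ := hb.1
          rw [h8, h9] at h6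
          cases h6
          exact he he'
        · have h8 := h.rails.arc c 0 (by omega)
          rw [c1] at h6
          obtain ⟨e, -, he, h9⟩ := (h.rails.start c).1
          rw [h9] at h6 h8
          have h10 := arc_from_inl h6 h8
          exact h7 ⟨c, by
            show w = r c (if q c = 0 then 1 else if q c = len c then len c - 1 else q c)
            rw [h10, if_pos c1, zero_add]⟩
      · by_cases c2 : q c = len c
        · rcases h5.cases_tail with h6 | ⟨w, h6, h7⟩
          · rw [c2] at h6
            obtain ⟨e, he, h8⟩ := (h.rails.fin c).1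
            obtain ⟨e', -, he', h9⟩ := ha.1
            rw [h8, h9] at h6
            cases h6
            exact he' he
          · have h8 := h.rails.arc c (len c - 1) (by omega)
            rw [Nat.sub_add_cancel (by omega)] at h8
            rw [c2] at h7
            obtain ⟨e, he, h9⟩ := (h.rails.fin c).1
            rw [h9] at h7 h8
            have h10 := arc_to_inl h7 h8
            exact h6.right_mem ⟨c, by
              show w = r c (if q c = 0 then 1 else if q c = len c then len c - 1 else q c)
              rw [h10, if_neg c1, if_pos c2]⟩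
        · exact hzc ⟨c, by
            show r c (q c) = r c (if q c = 0 then 1 else if q c = len c then len c - 1 else q c)
            rw [if_neg c1, if_neg c2]⟩

end Pool.Agent.H26.GW
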