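import Pool.Agent.H26.GW.Rail

/-!
# Module ZCM
-/

set_option autoImplicit false

namespace Pool.Agent.H26.GW

open Pool.Agent.H55.GW

section

variable {F : Frame} {m : ℕ → Vx} {N : ℕ} {O : ℕ → Set Vx} {k : ℕ} {len : Fin k → ℕ}
  {r : Fin k → ℕ → Vx}

/-- the rail vertices reachable from the sources of the level are those before the cut -/
theorem reach_iff (h : Chn F m N O k len r) {i : ℕ} (hi : i ≤ N) (P : Fin k → ℕ)
    (hP : ∀ c, 1 ≤ P c ∧ P c < len c)
    (hs : Sep (F.D m) (Zs r P) (F.src m ∩ O i) (F.snk m \ O i)) (c : Fin k) (q : ℕ)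
    (hq : q ≤ len c) :
    (∃ a ∈ F.src m ∩ O i, RIn (F.D m) (Zs r P)ᶜ a (r c q)) ↔ q < P c := by
  constructor
  · rintro ⟨a, ha, hr⟩
    by_contra hcon
    push Not at hcon
    rcases Nat.lt_or_ge (P c) q with h1 | h1
    · have h2 := rail_avoid h P (fun c => (hP c).2.le) c q (len c) hq (le_refl _) (Or.inl h1)
      exact hs a ha _ (chn_fin h hi c) (hr.trans h2)
    · have h2 : q = P c := le_antisymm h1 hcon
      exact hr.right_mem ⟨c, by rw [h2]⟩
  · intro h1
    exact ⟨_, chn_start h hi c, rail_avoid h P (fun c => (hP c).2.le) c 0 q (Nat.zero_le _) hq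
      (Or.inr h1)⟩

end

theorem zcm : T_ZCM := by
  intro F m N O k len r h i j hij hj p p' hp hp' hs hs'
  have hi : i ≤ N := hij.trans hj
  set R : Set Vx := {x | ∃ a ∈ F.src m ∩ O i, RIn (F.D m) (Zs r p)ᶜ a x} with hR
  set R' : Set Vx := {x | ∃ a ∈ F.src m ∩ O j, RIn (F.D m) (Zs r p')ᶜ a x} with hR'
  have e1 : ∀ c q, q ≤ len c → (r c q ∈ R ↔ q < p c) := fun c q hq =>
    reach_iff h hi p hp hs c q hq
  have e2 : ∀ c q, q ≤ len c → (r c q ∈ R' ↔ q < p' c) := fun c q hq =>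
    reach_iff h hj p' hp' hs' c q hq
  have hstep : ∀ x y, x ∈ R → x ∈ R' → F.D m x y → y ∉ Zs r (fun c => min (p c) (p' c)) →
      y ∈ R ∧ y ∈ R' := by
    intro x y hx hx' hxy hy
    have k1 : y ∉ R → y ∈ Zs r p := by
      intro hyR
      by_contra hyZ
      obtain ⟨a, ha, hr⟩ := hx
      exact hyR ⟨a, ha, hr.tail hxy hyZ⟩
    have k2 : y ∉ R' → y ∈ Zs r p' := by
      intro hyR
      by_contra hyZ
      obtain ⟨a, ha, hr⟩ := hx'
      exact hyR ⟨a, ha, hr.tail hxy hyZ⟩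
    by_cases c1 : y ∈ R
    · by_cases c2 : y ∈ R'
      · exact ⟨c1, c2⟩
      · exfalso
        obtain ⟨c, rfl⟩ := k2 c2
        have h3 := (e1 c (p' c) (hp' c).2.le).1 c1
        exact hy ⟨c, by
          show r c (p' c) = r c (min (p c) (p' c))
          rw [min_eq_right h3.le]⟩
    · by_cases c2 : y ∈ R'
      · exfalso
        obtain ⟨c, rfl⟩ := k1 c1
        have h3 := (e2 c (p c) (hp c).2.le).1 c2
        exact hy ⟨c, by
          show r c (p c) = r c (min (p c) (p' c))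
          rw [min_eq_left h3.le]⟩
      · exfalso
        obtain ⟨c, hc⟩ := k1 c1
        obtain ⟨c', hc'⟩ := k2 c2
        rw [hc] at hc'
        obtain ⟨h3, h4⟩ := h.rails.inj c (p c) c' (p' c') (hp c).2.le (hp' c').2.le hc'
        subst h3
        exact hy ⟨c, by
          show y = r c (min (p c) (p' c))
          rw [← h4, min_self, hc]⟩
  intro a ha b hb hr
  have ha0 : a ∉ Zs r p := by
    rintro ⟨c, hc⟩
    exact chn_not_src h c (p c) (hp c).1 (hp c).2.le (hc ▸ ha.1)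
  have ha0' : a ∉ Zs r p' := by
    rintro ⟨c, hc⟩
    exact chn_not_src h c (p' c) (hp' c).1 (hp' c).2.le (hc ▸ ha.1)
  have h5 : b ∈ R ∧ b ∈ R' := by
    refine hr.induct (p := fun x => x ∈ R ∧ x ∈ R') ⟨⟨a, ha, RIn.refl ha0⟩,
      ⟨a, ⟨ha.1, h.mono i j hij hj ha.2⟩, RIn.refl ha0'⟩⟩ ?_
    intro u v _ hv huv hu
    exact hstep u v hu.1 hu.2 huv hv
  obtain ⟨a', ha', hr'⟩ := h5.1
  exact hs a' ha' b hb hr'

end Pool.Agent.H26.GW
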